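import Mathlib
import Pool.Agent.H.MP_1fe139_gt.B

namespace Pool.Agent.Results.MP_1fe139_gt.Counter

open Cardinal

/-- There is a strictly quasi-Lindelof Hausdorff space in which every point has a local base of
at most continuum many open sets and whose cardinality exceeds two to the continuum. -/
theorem result : ∃ (X : Type) (_ : TopologicalSpace X), T2Space X ∧
    (∀ F : Set X, IsClosed F → ∀ 𝒰 : Set (Set X), (∀ U ∈ 𝒰, IsOpen U) → F ⊆ ⋃₀ 𝒰 →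
      ∀ 𝒟 : ℕ → Set (Set X), ⋃ n, 𝒟 n = 𝒰 →
        ∃ 𝒱 : ℕ → Set (Set X), (∀ n, 𝒱 n ⊆ 𝒟 n ∧ (𝒱 n).Countable) ∧
          F ⊆ ⋃ n, closure (⋃₀ 𝒱 n)) ∧
    (∀ x : X, ∃ ℬ : Set (Set X), #ℬ ≤ 𝔠 ∧ (∀ B ∈ ℬ, IsOpen B ∧ x ∈ B) ∧
      ∀ U, IsOpen U → x ∈ U → ∃ B ∈ ℬ, B ⊆ U) ∧
    2 ^ 𝔠 < #X := by
  obtain ⟨X, _, h1, h2, h3, h4⟩ := Pool.Agent.H.MP_1fe139_gt.main
  refine ⟨X, _, h1, ?_, h3, h4⟩
  rintro F hF _ hU hc 𝒟 rfl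
  exact h2 F hF 𝒟 (fun n U h => hU U (Set.mem_iUnion.2 ⟨n, h⟩)) hc

end Pool.Agent.Results.MP_1fe139_gt.Counter
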